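import Mathlib

/-!
# The discrete X-ray transform on the lines `γ_z` is not injective under polynomial decay

The function `f(x) = (-1/2)^a` if `|x|² = 2^a` and `f(x) = 0` for all other `x ≠ 0` satisfies
`|f(x)| ≤ |x|⁻²`; the only points of the support of `f` that can lie on `γ_z` are `z` and
`z ± i z`, and `f(z) + 2 f(z(1+i)) = 0`. The value `f(0)` is chosen to make the sum over `γ_0` vanish.
-/

set_option autoImplicit false

namespace Pool.Agent.Results.MP_ca57f4_an.NotDetermined

open Real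

/-- The line through `z` perpendicular to `z` (used for `z ≠ 0`). -/
def perpLine (z : ℤ × ℤ) : Set (ℝ × ℝ) :=
  {p | ∃ t : ℝ, p = ((z.1 : ℝ) + t * (-(z.2 : ℝ) / √((z.1 : ℝ) ^ 2 + (z.2 : ℝ) ^ 2)),
    (z.2 : ℝ) + t * ((z.1 : ℝ) / √((z.1 : ℝ) ^ 2 + (z.2 : ℝ) ^ 2)))}

/-- The line through the origin with direction `w` (used for `w ≠ 0`). -/
def originLine (w : ℤ × ℤ) : Set (ℝ × ℝ) :=
  {p | ∃ t : ℝ, p = (t * (w.1 : ℝ), t * (w.2 : ℝ))}

open Classical in
/-- The line `γ_z`; for `z = 0` it is the line through the origin with the chosen direction `w`. -/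
noncomputable def gammaLine (w z : ℤ × ℤ) : Set (ℝ × ℝ) :=
  if z = 0 then originLine w else perpLine z

theorem norm_pos {z : ℤ × ℤ} (hz : z ≠ 0) : 0 < z.1 ^ 2 + z.2 ^ 2 := by
  by_contra h
  push Not at h
  have h1 : z.1 ^ 2 = 0 := by nlinarith [sq_nonneg z.1, sq_nonneg z.2]
  have h2 : z.2 ^ 2 = 0 := by nlinarith [sq_nonneg z.1, sq_nonneg z.2]
  apply hz
  ext
  · simpa using h1
  · simpa using h2

theorem mem_perpLine_iff {z : ℤ × ℤ} (hz : z ≠ 0) (y : ℤ × ℤ) :
    ((y.1 : ℝ), (y.2 : ℝ)) ∈ perpLine z ↔ y.1 * z.1 + y.2 * z.2 = z.1 ^ 2 + z.2 ^ 2 := by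
  have hpos : (0 : ℝ) < (z.1 : ℝ) ^ 2 + (z.2 : ℝ) ^ 2 := by exact_mod_cast norm_pos hz
  have hs : 0 < √((z.1 : ℝ) ^ 2 + (z.2 : ℝ) ^ 2) := Real.sqrt_pos.2 hpos
  have hss := Real.sq_sqrt hpos.le
  constructor
  · rintro ⟨t, ht⟩
    have h1 := congrArg Prod.fst ht
    have h2 := congrArg Prod.snd ht
    simp only at h1 h2
    have : (y.1 : ℝ) * z.1 + y.2 * z.2 = z.1 ^ 2 + z.2 ^ 2 := by
      rw [h1, h2]; field_simp; ring
    exact_mod_cast this
  · intro h
    have h' : (y.1 : ℝ) * z.1 + y.2 * z.2 = z.1 ^ 2 + z.2 ^ 2 := by exact_mod_cast h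
    refine ⟨(-(y.1 : ℝ) * z.2 + y.2 * z.1) / √((z.1 : ℝ) ^ 2 + (z.2 : ℝ) ^ 2), ?_⟩
    ext
    · simp only
      rw [div_mul_div_comm, ← sq, hss]
      field_simp
      linear_combination (z.1 : ℝ) * h'
    · simp only
      rw [div_mul_div_comm, ← sq, hss]
      field_simp
      linear_combination (z.2 : ℝ) * h'

/-- A Gaussian integer of norm `2^a` on `γ_z` is `z` or `z (1 ± i)`. -/
theorem key (a : ℕ) : ∀ y z : ℤ × ℤ, z ≠ 0 → y.1 ^ 2 + y.2 ^ 2 = 2 ^ a →
    y.1 * z.1 + y.2 * z.2 = z.1 ^ 2 + z.2 ^ 2 →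
    y = z ∨ y = (z.1 - z.2, z.2 + z.1) ∨ y = (z.1 + z.2, z.2 - z.1) := by
  induction a with
  | zero =>
    intro y z hz hy hyz
    left
    have hp := norm_pos hz
    have : (y.1 - z.1) ^ 2 + (y.2 - z.2) ^ 2 ≤ 0 := by nlinarith
    have h1 : (y.1 - z.1) ^ 2 = 0 := by nlinarith [sq_nonneg (y.1 - z.1), sq_nonneg (y.2 - z.2)]
    have h2 : (y.2 - z.2) ^ 2 = 0 := by nlinarith [sq_nonneg (y.1 - z.1), sq_nonneg (y.2 - z.2)]
    ext
    · have := pow_eq_zero_iff (two_ne_zero) |>.1 h1
      linarith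
    · have := pow_eq_zero_iff (two_ne_zero) |>.1 h2
      linarith
  | succ a ih =>
    intro y z hz hy hyz
    have hyev : Even (y.1 ^ 2 + y.2 ^ 2) := by
      rw [hy]; exact ⟨2 ^ a, by ring⟩
    have hyev' : Even (y.1 + y.2) := by
      simpa [Int.even_add, Int.even_pow] using hyev
    obtain ⟨p, hp⟩ := hyev'
    -- y = (1+i) y', y' = (p, p - y.1)
    have hy2 : y.2 = 2 * p - y.1 := by linarith
    by_cases hzev : Even (z.1 + z.2)
    · obtain ⟨q, hq⟩ := hzev
      have hz2 : z.2 = 2 * q - z.1 := by linarith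
      have hz' : ((q, q - z.1) : ℤ × ℤ) ≠ 0 := by
        intro h
        have e1 : q = 0 := congrArg Prod.fst h
        have e2 : q - z.1 = 0 := congrArg Prod.snd h
        apply hz
        ext
        · simp; linarith
        · simp; linarith
      have := ih (p, p - y.1) (q, q - z.1) hz' (by
          have h3 : (2 : ℤ) ^ (a + 1) = 2 * 2 ^ a := by ring
          rw [hy2, h3] at hy
          simp only
          nlinarith) (by
          simp only
          rw [hy2, hz2] at hyz
          nlinarith)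
      rcases this with h | h | h
      · left
        have e1 : p = q := congrArg Prod.fst h
        have e2 : p - y.1 = q - z.1 := congrArg Prod.snd h
        ext
        · linarith
        · linarith
      · right; left
        have e1 : p = q - (q - z.1) := congrArg Prod.fst h
        have e2 : p - y.1 = q - z.1 + q := congrArg Prod.snd h
        ext
        · simp only; linarith
        · simp only; linarith
      · right; right
        have e1 : p = q + (q - z.1) := congrArg Prod.fst h
        have e2 : p - y.1 = q - z.1 - q := congrArg Prod.snd h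
        ext
        · simp only; linarith
        · simp only; linarith
    · -- N(z) odd
      have hNz : Odd (z.1 ^ 2 + z.2 ^ 2) := by
        rw [← Int.not_even_iff_odd]
        intro h
        apply hzev
        simpa [Int.even_add, Int.even_pow] using h
      rw [← hyz] at hNz
      -- p-part
      have hodd : Odd ((p * z.1 + (p - y.1) * z.2) - (p * (-z.2) + (p - y.1) * z.1)) := by
        have : (p * z.1 + (p - y.1) * z.2) - (p * (-z.2) + (p - y.1) * z.1) =
          y.1 * z.1 + y.2 * z.2 := by rw [hy2]; ring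
        rwa [this]
      have hodd2 : Odd ((p * z.1 + (p - y.1) * z.2) ^ 2 + (p * (-z.2) + (p - y.1) * z.1) ^ 2) := by
        rcases Int.even_or_odd (p * z.1 + (p - y.1) * z.2) with h1 | h1 <;>
        rcases Int.even_or_odd (p * (-z.2) + (p - y.1) * z.1) with h2 | h2
        · exact absurd (h1.sub h2) (Int.not_even_iff_odd.2 hodd)
        · exact (h1.pow_of_ne_zero two_ne_zero).add_odd h2.pow
        · exact h1.pow.add_even (h2.pow_of_ne_zero two_ne_zero)
        · exact absurd (h1.sub_odd h2) (Int.not_even_iff_odd.2 hodd)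
      have hfac : (p * z.1 + (p - y.1) * z.2) ^ 2 + (p * (-z.2) + (p - y.1) * z.1) ^ 2 =
          2 ^ a * (z.1 ^ 2 + z.2 ^ 2) := by
        have h3 : (2 : ℤ) ^ (a + 1) = 2 * 2 ^ a := by ring
        have h4 : (2 : ℤ) ^ a = p ^ 2 + (p - y.1) ^ 2 := by
          rw [hy2, h3] at hy
          nlinarith
        rw [h4]; ring
      rw [hfac] at hodd2
      have ha : a = 0 := by
        by_contra h
        have : Even ((2 : ℤ) ^ a) := by
          exact Int.even_pow.2 ⟨by decide, h⟩
        exact absurd (this.mul_right _) (Int.not_even_iff_odd.2 hodd2)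
      subst ha
      simp only [zero_add, pow_one] at hy
      -- |z|² < 4 and odd; |z|=1 or 3
      have hb := norm_pos hz
      have hle : z.1 ^ 2 + z.2 ^ 2 ≤ 2 := by nlinarith [sq_nonneg (y.1 - z.1), sq_nonneg (y.2 - z.2)]
      have hne : z.1 ^ 2 + z.2 ^ 2 ≠ 2 := by
        intro h
        rw [hyz, h] at hNz
        exact absurd hNz (by decide)
      have h1 : z.1 ^ 2 + z.2 ^ 2 = 1 := by omega
      have hz1 : -1 ≤ z.1 ∧ z.1 ≤ 1 := by constructor <;> nlinarith [sq_nonneg z.2]
      have hz2 : -1 ≤ z.2 ∧ z.2 ≤ 1 := by constructor <;> nlinarith [sq_nonneg z.1]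
      have hy1 : -1 ≤ y.1 ∧ y.1 ≤ 1 := by constructor <;> nlinarith [sq_nonneg y.2]
      have hy2' : -1 ≤ y.2 ∧ y.2 ≤ 1 := by constructor <;> nlinarith [sq_nonneg y.1]
      obtain ⟨z1, z2⟩ := z
      obtain ⟨y1, y2⟩ := y
      simp only at *
      obtain ⟨a1, a2⟩ := hz1
      obtain ⟨a3, a4⟩ := hz2
      obtain ⟨a5, a6⟩ := hy1
      obtain ⟨a7, a8⟩ := hy2'
      clear ih hz hNz hodd hodd2 hfac hp hzev hyev hb hle hne
      interval_cases z1 <;> interval_cases z2 <;> interval_cases y1 <;> interval_cases y2 <;>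
        first
        | (exfalso; omega)
        | decide

open Classical in
/-- The radial profile: `g n = (-1/2)^a` if `n = 2^a`, and `0` otherwise. -/
noncomputable def g (n : ℤ) : ℂ := if h : ∃ a : ℕ, n = 2 ^ a then (-1 / 2 : ℂ) ^ (Classical.choose h) else 0

theorem g_two_pow (a : ℕ) : g (2 ^ a) = (-1 / 2 : ℂ) ^ a := by
  have h : ∃ b : ℕ, (2 : ℤ) ^ a = 2 ^ b := ⟨a, rfl⟩
  rw [g, dif_pos h]
  have := Classical.choose_spec h
  have h2 : a = Classical.choose h := by
    have := Int.pow_right_injective (a := 2) (by norm_num) this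
    exact this
  rw [← h2]

theorem g_two_mul {n : ℤ} (hn : 0 < n) : g n + 2 * g (2 * n) = 0 := by
  by_cases h : ∃ a : ℕ, n = 2 ^ a
  · obtain ⟨a, rfl⟩ := h
    have : (2 : ℤ) * 2 ^ a = 2 ^ (a + 1) := by ring
    rw [this, g_two_pow, g_two_pow]
    ring
  · have h2 : ¬ ∃ a : ℕ, 2 * n = 2 ^ a := by
      rintro ⟨a, ha⟩
      rcases a with _ | a
      · omega
      · apply h
        refine ⟨a, ?_⟩
        have : (2 : ℤ) ^ (a + 1) = 2 * 2 ^ a := by ring
        linarith
    rw [g, dif_neg h, g, dif_neg h2]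
    ring

theorem g_bound {n : ℤ} (hn : 0 < n) : ‖g n‖ ≤ 1 / (n : ℝ) := by
  by_cases h : ∃ a : ℕ, n = 2 ^ a
  · obtain ⟨a, rfl⟩ := h
    rw [g_two_pow]
    simp
  · rw [g, dif_neg h]
    have : (0 : ℝ) < n := by exact_mod_cast hn
    simp
    positivity

theorem result : ∀ w : ℤ × ℤ, w ≠ 0 → ∃ f : ℤ × ℤ → ℂ, f ≠ 0 ∧
    (∀ x : ℤ × ℤ, x ≠ 0 → ‖f x‖ ≤ 1 / ((x.1 : ℝ) ^ 2 + (x.2 : ℝ) ^ 2)) ∧
    ∀ z : ℤ × ℤ, HasSum
      (fun y : {y : ℤ × ℤ // ((y.1 : ℝ), (y.2 : ℝ)) ∈ gammaLine w z} => f y) 0 := by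
  intro w hw
  classical
  -- the function without the value at the origin
  let f0 : ℤ × ℤ → ℂ := fun x => if x = 0 then 0 else g (x.1 ^ 2 + x.2 ^ 2)
  have hf0b : ∀ x : ℤ × ℤ, x ≠ 0 → ‖f0 x‖ ≤ 1 / ((x.1 : ℝ) ^ 2 + (x.2 : ℝ) ^ 2) := by
    intro x hx
    simp only [f0, if_neg hx]
    have := g_bound (norm_pos hx)
    push_cast at this
    exact this
  -- summability on the origin line
  have hsum : Summable (fun y : {y : ℤ × ℤ // ((y.1 : ℝ), (y.2 : ℝ)) ∈ originLine w} => f0 y) := by
    have hZ : Summable (fun n : ℤ => 1 / (n : ℝ) ^ 2) := Real.summable_one_div_int_pow.2 (by norm_num)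
    by_cases h1 : w.1 = 0
    · have h2 : w.2 ≠ 0 := by
        intro h2
        apply hw
        ext <;> simp [h1, h2]
      have hinj : Function.Injective
          (fun y : {y : ℤ × ℤ // ((y.1 : ℝ), (y.2 : ℝ)) ∈ originLine w} => (y : ℤ × ℤ).2) := by
        rintro ⟨y, t, ht⟩ ⟨y', t', ht'⟩ h
        simp only at h
        have e1 := congrArg Prod.fst ht
        have e1' := congrArg Prod.fst ht'
        simp only [h1, Int.cast_zero, mul_zero] at e1 e1'
        apply Subtype.ext
        ext
        · have a1 : y.1 = 0 := by exact_mod_cast e1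
          have a2 : y'.1 = 0 := by exact_mod_cast e1'
          simp [a1, a2]
        · exact h
      have := hZ.comp_injective hinj
      refine Summable.of_norm_bounded this ?_
      rintro ⟨y, t, ht⟩
      simp only [Function.comp]
      have e1 := congrArg Prod.fst ht
      simp only [h1, Int.cast_zero, mul_zero] at e1
      have a1 : y.1 = 0 := by exact_mod_cast e1
      by_cases hy : y = 0
      · simp [f0, hy]
      · have := hf0b y hy
        rw [a1] at this
        simpa using this
    · have hinj : Function.Injective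
          (fun y : {y : ℤ × ℤ // ((y.1 : ℝ), (y.2 : ℝ)) ∈ originLine w} => (y : ℤ × ℤ).1) := by
        rintro ⟨y, t, ht⟩ ⟨y', t', ht'⟩ h
        simp only at h
        have e1 := congrArg Prod.fst ht
        have e1' := congrArg Prod.fst ht'
        have e2 := congrArg Prod.snd ht
        have e2' := congrArg Prod.snd ht'
        simp only at e1 e1' e2 e2'
        have hw1 : (w.1 : ℝ) ≠ 0 := by exact_mod_cast h1
        have htt : t = t' := by
          have : t * (w.1 : ℝ) = t' * w.1 := by rw [← e1, ← e1', h]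
          exact mul_right_cancel₀ hw1 this
        apply Subtype.ext
        ext
        · exact h
        · have : (y.2 : ℝ) = y'.2 := by rw [e2, e2', htt]
          exact_mod_cast this
      have := hZ.comp_injective hinj
      refine Summable.of_norm_bounded this ?_
      rintro ⟨y, t, ht⟩
      simp only [Function.comp]
      have e1 := congrArg Prod.fst ht
      have e2 := congrArg Prod.snd ht
      simp only at e1 e2
      by_cases hy : y = 0
      · simp [f0, hy]
      · have hb := hf0b y hy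
        refine hb.trans ?_
        have hw1 : (w.1 : ℝ) ≠ 0 := by exact_mod_cast h1
        have ht0 : t ≠ 0 := by
          rintro rfl
          apply hy
          ext
          · simpa using e1
          · simpa using e2
        have : (0 : ℝ) < (y.1 : ℝ) ^ 2 := by
          rw [e1]; positivity
        apply one_div_le_one_div_of_le this
        nlinarith [sq_nonneg (y.2 : ℝ)]
  let c : ℂ := - ∑' y : {y : ℤ × ℤ // ((y.1 : ℝ), (y.2 : ℝ)) ∈ originLine w}, f0 y
  let f : ℤ × ℤ → ℂ := fun x => f0 x + if x = 0 then c else 0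
  have hff0 : ∀ x : ℤ × ℤ, x ≠ 0 → f x = g (x.1 ^ 2 + x.2 ^ 2) := by
    intro x hx
    simp [f, f0, hx]
  refine ⟨f, ?_, ?_, ?_⟩
  · intro h
    have := congrFun h (1, 0)
    rw [hff0 (1, 0) (by simp)] at this
    have h2 := g_two_pow 0
    simp at h2
    simp [h2] at this
  · intro x hx
    have : f x = f0 x := by simp [f, hx]
    rw [this]
    exact hf0b x hx
  · intro z
    by_cases hz : z = 0
    · -- origin line
      have hline : gammaLine w z = originLine w := by simp [gammaLine, hz]
      rw [hline]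
      have h0 : ((0 : ℤ × ℤ).1 : ℝ) = 0 := by simp
      have hmem : (((0 : ℤ × ℤ).1 : ℝ), ((0 : ℤ × ℤ).2 : ℝ)) ∈ originLine w := ⟨0, by simp⟩
      have h1 : HasSum (fun y : {y : ℤ × ℤ // ((y.1 : ℝ), (y.2 : ℝ)) ∈ originLine w} => f0 y) (-c) := by
        simp only [c, neg_neg]
        exact hsum.hasSum
      have h2 : HasSum (fun y : {y : ℤ × ℤ // ((y.1 : ℝ), (y.2 : ℝ)) ∈ originLine w} =>
          if (y : ℤ × ℤ) = 0 then c else 0) c := by
        have := hasSum_ite_eq (⟨0, hmem⟩ : {y : ℤ × ℤ // ((y.1 : ℝ), (y.2 : ℝ)) ∈ originLine w}) c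
        convert this using 3 with y
        constructor
        · intro h; exact Subtype.ext h
        · intro h; rw [h]
      have h3 := h1.add h2
      rw [neg_add_cancel] at h3
      exact h3
    · have hline : gammaLine w z = perpLine z := by simp [gammaLine, hz]
      rw [hline]
      have hp := norm_pos hz
      have m0 : ((z.1 : ℝ), (z.2 : ℝ)) ∈ perpLine z := by
        rw [mem_perpLine_iff hz]; ring
      have m1 : (((z.1 - z.2, z.2 + z.1) : ℤ × ℤ).1 : ℝ) = (z.1 - z.2 : ℤ) := rfl
      let y1 : ℤ × ℤ := (z.1 - z.2, z.2 + z.1)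
      let y2 : ℤ × ℤ := (z.1 + z.2, z.2 - z.1)
      have m1 : ((y1.1 : ℝ), (y1.2 : ℝ)) ∈ perpLine z := by
        rw [mem_perpLine_iff hz]; simp only [y1]; ring
      have m2 : ((y2.1 : ℝ), (y2.2 : ℝ)) ∈ perpLine z := by
        rw [mem_perpLine_iff hz]; simp only [y2]; ring
      let s0 : {y : ℤ × ℤ // ((y.1 : ℝ), (y.2 : ℝ)) ∈ perpLine z} := ⟨z, m0⟩
      let s1 : {y : ℤ × ℤ // ((y.1 : ℝ), (y.2 : ℝ)) ∈ perpLine z} := ⟨y1, m1⟩
      let s2 : {y : ℤ × ℤ // ((y.1 : ℝ), (y.2 : ℝ)) ∈ perpLine z} := ⟨y2, m2⟩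
      have n01 : s0 ≠ s1 := by
        intro h
        have h' : z = y1 := congrArg Subtype.val h
        have e1 : z.1 = z.1 - z.2 := congrArg Prod.fst h'
        have e2 : z.2 = z.2 + z.1 := congrArg Prod.snd h'
        apply hz; ext
        · simp; linarith
        · simp; linarith
      have n02 : s0 ≠ s2 := by
        intro h
        have h' : z = y2 := congrArg Subtype.val h
        have e1 : z.1 = z.1 + z.2 := congrArg Prod.fst h'
        have e2 : z.2 = z.2 - z.1 := congrArg Prod.snd h'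
        apply hz; ext
        · simp; linarith
        · simp; linarith
      have n12 : s1 ≠ s2 := by
        intro h
        have h' : y1 = y2 := congrArg Subtype.val h
        have e1 : z.1 - z.2 = z.1 + z.2 := congrArg Prod.fst h'
        have e2 : z.2 + z.1 = z.2 - z.1 := congrArg Prod.snd h'
        apply hz; ext
        · simp; linarith
        · simp; linarith
      have hnz : ∀ y : ℤ × ℤ, ((y.1 : ℝ), (y.2 : ℝ)) ∈ perpLine z → y ≠ 0 := by
        intro y hy h
        rw [mem_perpLine_iff hz, h] at hy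
        simp at hy
        rw [← hy] at hp
        exact lt_irrefl _ hp
      have hfin := hasSum_sum_of_ne_finset_zero (L := SummationFilter.unconditional _)
        (f := fun y : {y : ℤ × ℤ // ((y.1 : ℝ), (y.2 : ℝ)) ∈ perpLine z} => f y)
        (s := {s0, s1, s2}) (by
          intro y hy
          simp only [Finset.mem_insert, Finset.mem_singleton, not_or] at hy
          have hy0 := hnz y.1 y.2
          rw [hff0 _ hy0]
          by_contra hne
          have hex : ∃ a : ℕ, (y : ℤ × ℤ).1 ^ 2 + (y : ℤ × ℤ).2 ^ 2 = 2 ^ a := by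
            by_contra hno
            rw [g, dif_neg hno] at hne
            exact hne rfl
          obtain ⟨a, ha⟩ := hex
          rcases key a y.1 z hz ha ((mem_perpLine_iff hz y.1).1 y.2) with h | h | h
          · exact hy.1 (Subtype.ext h)
          · exact hy.2.1 (Subtype.ext h)
          · exact hy.2.2 (Subtype.ext h))
      have hval : ∑ b ∈ ({s0, s1, s2} : Finset _), f b = 0 := by
        rw [Finset.sum_insert (by simp [n01, n02]), Finset.sum_insert (by simp [n12]),
          Finset.sum_singleton]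
        rw [hff0 _ (hnz _ s0.2), hff0 _ (hnz _ s1.2), hff0 _ (hnz _ s2.2)]
        have e1 : (s1 : ℤ × ℤ).1 ^ 2 + (s1 : ℤ × ℤ).2 ^ 2 = 2 * (z.1 ^ 2 + z.2 ^ 2) := by
          simp only [s1, y1]; ring
        have e2 : (s2 : ℤ × ℤ).1 ^ 2 + (s2 : ℤ × ℤ).2 ^ 2 = 2 * (z.1 ^ 2 + z.2 ^ 2) := by
          simp only [s2, y2]; ring
        rw [e1, e2]
        have := g_two_mul hp
        simp only [s0]
        linear_combination this
      rw [hval] at hfin
      exact hfin

end Pool.Agent.Results.MP_ca57f4_an.NotDetermined
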